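import Pool.Agent.L5helper95.Climb2

/-!
# Excursions beyond the trivial lower bound `n ^ (log_2 3)`

The trajectory of `2 ^ k m - 1` climbs to `3 ^ k m - 1` in its first `k` steps, and this is the trivial lower bound
`t(n) ≥ c n ^ (log_2 3)` for infinitely many `n`. We show that what follows the climb can be prescribed: for every word `w` of
`J + 2` letters `0, 1` every window of `2 ^ (J + 1)` consecutive integers contains a `k` such that for `m = 1` or `m = 5` the
trajectory of `n = 2 ^ k m - 1` has the parities `1, ..., 1` (`k` times), `0`, `w`. These are `log_2 log n` steps more than those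
which are given by the residue class of `n` modulo powers of two. For `w = 1 ... 1` one gets
`T^j n ≥ (1/60) n ^ (log_2 3) (log_2 n) ^ (log_2 (3/2))` for infinitely many `n`.
-/

set_option autoImplicit false

namespace Pool.Agent.Results.MP_0a5adf_nt.BeyondTheClimb

/-- The accelerated `3x+1` map. -/
def T (n : ℕ) : ℕ := if n % 2 = 0 then n / 2 else (3 * n + 1) / 2

theorem T_eq : T = Pool.Agent.L5helper95.Climb.T := rfl

/-- Every continuation of a climb, and excursions beyond the climb. -/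
theorem result :
    (∀ (J K : ℕ) (w : ℕ → ℕ), (∀ i, w i = 0 ∨ w i = 1) →
      ∃ k, K ≤ k ∧ k < K + 2 ^ (J + 1) ∧ ∃ m : ℕ, (m = 1 ∨ m = 5) ∧
        (∀ i < k, T^[i] (2 ^ k * m - 1) % 2 = 1) ∧ T^[k] (2 ^ k * m - 1) = 3 ^ k * m - 1 ∧
        T^[k] (2 ^ k * m - 1) % 2 = 0 ∧
        ∀ i < J + 2, T^[k + 1 + i] (2 ^ k * m - 1) % 2 = w i) ∧
    (∀ N : ℕ, ∃ n ≥ N, ∃ j : ℕ,
      (1 / 60 : ℝ) * (n : ℝ) ^ (Real.logb 2 3) * (Real.logb 2 n) ^ (Real.logb 2 (3 / 2)) ≤
        ((T^[j] n : ℕ) : ℝ)) := by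
  rw [T_eq]
  exact ⟨fun J K w hw => Pool.Agent.L5helper95.Climb.continuation J w hw K,
    Pool.Agent.L5helper95.Climb.beyond⟩

end Pool.Agent.Results.MP_0a5adf_nt.BeyondTheClimb
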