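import Pool.Agent.L5helper95.Exc3

/-!
# The number of the climbs within the first `log_2 x` steps

Let `climb x V` be the number of the positive integers `n ≤ x` which have a term `T^k n ≥ V` with `2 ^ k ≤ x`. We determine the
exponent of `climb x (x ^ θ)` for all `θ ≥ 1`: it is `2 - θ` for `1 ≤ θ < (3/4) log_2 3 = 1.1887...` (and `climb x V` is
`x^2 / V` up to a constant factor, in the range `x ≤ V ≤ x ^ θ`), it is the binary entropy `H (θ / log_2 3)` for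
`(3/4) log_2 3 < θ < log_2 3`, and there are no such `n` for `V ≥ 2 x ^ (log_2 3)`.
-/

set_option autoImplicit false

namespace Pool.Agent.Results.MP_0a5adf_nt.ClimbExponents

/-- The accelerated `3x+1` map. -/
def T (n : ℕ) : ℕ := if n % 2 = 0 then n / 2 else (3 * n + 1) / 2

/-- The number of the positive integers `n ≤ x` with `T^k n ≥ V` for some `k` with `2 ^ k ≤ x`. -/
noncomputable def climb (x V : ℝ) : ℕ :=
  {n : ℕ | 1 ≤ n ∧ (n : ℝ) ≤ x ∧ ∃ k : ℕ, (2 : ℝ) ^ k ≤ x ∧ V ≤ ((T^[k] n : ℕ) : ℝ)}.ncard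

/-- The binary entropy function, in bits. -/
noncomputable def H (β : ℝ) : ℝ := Real.binEntropy β / Real.log 2

/-- The number of the climbs to `V` of the `n ≤ x` within the first `log_2 x` steps. -/
theorem result :
    (∀ x V : ℝ, 1 ≤ x → 0 < V → (climb x V : ℝ) ≤ 4 * x ^ 2 / V) ∧
    (∀ θ : ℝ, 1 ≤ θ → θ < 3 / 4 * Real.logb 2 3 → ∃ x₀ : ℝ, ∀ x : ℝ, x₀ ≤ x →
      ∀ V : ℝ, x ≤ V → V ≤ x ^ θ → x ^ 2 / (48 * V) ≤ (climb x V : ℝ)) ∧
    (∀ β : ℝ, 3 / 4 < β → β < 1 → ∃ c C x₀ : ℝ, 0 < c ∧ 0 < C ∧ ∀ x : ℝ, x₀ ≤ x →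
      c * x ^ H β / Real.log x ≤ (climb x (x ^ (β * Real.logb 2 3)) : ℝ) ∧
      (climb x (x ^ (β * Real.logb 2 3)) : ℝ) ≤ C * x ^ H β) ∧
    (∀ x V : ℝ, 1 ≤ x → 2 * x ^ Real.logb 2 3 ≤ V → climb x V = 0) := by
  refine ⟨fun x V hx hV => Pool.Agent.L5helper95.Exc.upper1 hx hV,
    fun θ h1 h2 => Pool.Agent.L5helper95.Exc.lower1 h1 h2, fun β h0 h1 => ?_, fun x V hx hV => ?_⟩
  · obtain ⟨C, hC, h⟩ := Pool.Agent.L5helper95.Exc.upper3 h0 h1
    obtain ⟨c, x₀, hc, h'⟩ := Pool.Agent.L5helper95.Exc.lower3 h0 h1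
    refine ⟨c, C, max 1 x₀, hc, hC, fun x hx => ⟨h' x (le_trans (le_max_right _ _) hx),
      h x (le_trans (le_max_left _ _) hx)⟩⟩
  · have h := Pool.Agent.L5helper95.Exc.top hx hV
    have h2 : (Pool.Agent.L5helper95.Exc.clim x V).ncard = 0 := by rw [h]; exact Set.ncard_empty ℕ
    exact h2

end Pool.Agent.Results.MP_0a5adf_nt.ClimbExponents
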