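import Pool.Agent.Results.MP_0a5adf_nt.ExcursionsExplicit

set_option autoImplicit false

/-! The record-holders of the maximum excursion: they decide every monotone bound, and they are few. -/

namespace Pool.Agent.Results.MP_0a5adf_nt.RecordHolders

/-- the accelerated `3x+1` map -/
def T (n : ℕ) : ℕ := if n % 2 = 0 then n / 2 else (3 * n + 1) / 2

/-- the maximum excursion `t(n)`, the supremum of the trajectory of `n`: a natural number or `∞` -/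
noncomputable def t (n : ℕ) : ℕ∞ := ⨆ k : ℕ, ((T^[k] n : ℕ) : ℕ∞)

/-- `n` is a record-holder: `n ≥ 1`, and `t(m) < t(n)` for all `1 ≤ m < n` -/
def IsRecord (n : ℕ) : Prop := 1 ≤ n ∧ ∀ m : ℕ, 1 ≤ m → m < n → t m < t n

/-- the number of positive integers `n ≤ x` with the property `P` -/
noncomputable def count (P : ℕ → Prop) (x : ℝ) : ℝ := ({n : ℕ | 1 ≤ n ∧ (n : ℝ) ≤ x ∧ P n}.ncard : ℝ)

theorem T_eq : T = ExcursionsExplicit.T := rfl

theorem le_t (n k : ℕ) : ((T^[k] n : ℕ) : ℕ∞) ≤ t n := le_iSup (fun k : ℕ => ((T^[k] n : ℕ) : ℕ∞)) k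

theorem T_pos {n : ℕ} (h : 1 ≤ n) : 1 ≤ T n := by
  unfold T
  split_ifs <;> omega

theorem iter_pos {n : ℕ} (h : 1 ≤ n) (k : ℕ) : 1 ≤ T^[k] n := by
  induction k with
  | zero => simpa using h
  | succ k ih =>
    rw [Function.iterate_succ_apply']
    exact T_pos ih

/-- the climb of `2^k a - 1` -/
theorem climb (k : ℕ) : ∀ a : ℕ, 1 ≤ a → T^[k] (2 ^ k * a - 1) = 3 ^ k * a - 1 := by
  induction k with
  | zero => intro a _; simp
  | succ k ih =>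
    intro a ha
    rw [Function.iterate_succ_apply]
    have h1 : T (2 ^ (k + 1) * a - 1) = 2 ^ k * (3 * a) - 1 := by
      have hp : 1 ≤ 2 ^ k * a := Nat.one_le_iff_ne_zero.2 (by positivity)
      have e1 : 2 ^ (k + 1) * a = 2 * (2 ^ k * a) := by ring
      have e2 : 2 ^ k * (3 * a) = 3 * (2 ^ k * a) := by ring
      rw [e1, e2]
      unfold T
      rw [if_neg (by omega)]
      omega
    rw [h1, ih (3 * a) (by omega)]
    congr 1
    ring

/-- a record-holder beyond `2^k` does not descend below `2^k` without having exceeded `3^k - 1` -/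
theorem rec_not_desc {B : ℝ} {k n : ℕ} (hk : 1 ≤ k) (hn : 2 ^ k < n) (hr : IsRecord n) :
    ¬ ExcursionsExplicit.DescendsBelow B ((2 : ℝ) ^ k) ((3 : ℝ) ^ k - 1) n := by
  rintro ⟨m, -, h2, h3⟩
  rw [← T_eq] at h2 h3
  have h2' : T^[m] n ≤ 2 ^ k := by exact_mod_cast h2
  have h3' : ∀ j ≤ m, T^[j] n ≤ 3 ^ k - 1 := by
    intro j hj
    have h4 := h3 j hj
    have h5 : ((T^[j] n + 1 : ℕ) : ℝ) ≤ ((3 ^ k : ℕ) : ℝ) := by push_cast; linarith
    have h6 : T^[j] n + 1 ≤ 3 ^ k := by exact_mod_cast h5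
    omega
  have hn1 : 1 ≤ n := by omega
  have hu : t (T^[m] n) < t n := hr.2 _ (iter_pos hn1 m) (lt_of_le_of_lt h2' hn)
  have h2k : 2 ≤ 2 ^ k := by
    calc 2 = 2 ^ 1 := by norm_num
      _ ≤ 2 ^ k := Nat.pow_le_pow_right (by norm_num) hk
  have hv : (((3 ^ k - 1 : ℕ) : ℕ) : ℕ∞) < t n := by
    have h4 := hr.2 (2 ^ k - 1) (by omega) (by omega)
    refine lt_of_le_of_lt ?_ h4
    have h5 := le_t (2 ^ k - 1) k
    have h6 := climb k 1 le_rfl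
    rw [mul_one, mul_one] at h6
    rw [h6] at h5
    exact h5
  have hle : t n ≤ max (((3 ^ k - 1 : ℕ) : ℕ) : ℕ∞) (t (T^[m] n)) := by
    refine iSup_le fun j => ?_
    rcases le_or_gt j m with hj | hj
    · refine le_max_of_le_left ?_
      exact_mod_cast h3' j hj
    · refine le_max_of_le_right ?_
      have h4 := le_t (T^[m] n) (j - m)
      rw [← Function.iterate_add_apply, Nat.sub_add_cancel hj.le] at h4
      exact h4
  exact absurd hle (not_le.2 (max_lt hv hu))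

theorem fin (P : ℕ → Prop) (x : ℝ) : {n : ℕ | 1 ≤ n ∧ (n : ℝ) ≤ x ∧ P n}.Finite :=
  (Set.finite_Icc 1 ⌊x⌋₊).subset fun _ hn => ⟨hn.1, Nat.le_floor hn.2.1⟩

theorem count_mono (P : ℕ → Prop) {x y : ℝ} (h : x ≤ y) : count P x ≤ count P y := by
  unfold count
  have h1 : {n : ℕ | 1 ≤ n ∧ (n : ℝ) ≤ x ∧ P n} ⊆ {n : ℕ | 1 ≤ n ∧ (n : ℝ) ≤ y ∧ P n} :=
    fun n hn => ⟨hn.1, hn.2.1.trans h, hn.2.2⟩
  exact_mod_cast Set.ncard_le_ncard h1 (fin P y)

/-- one dyadic step -/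
theorem step {B C : ℝ} (hC : 0 < C)
    (h : ∀ x y V : ℝ, 2 ≤ x → 1 ≤ y → x ≤ V →
      ExcursionsExplicit.count (fun n => ¬ ExcursionsExplicit.DescendsBelow B y V n) x ≤
        C * Real.log x ^ 4 * (x ^ 2 / V + x / y ^ (6 / 100 : ℝ))) {k : ℕ} (hk : 2 ≤ k) :
    count IsRecord ((2 : ℝ) ^ (k + 1)) ≤ count IsRecord ((2 : ℝ) ^ k) +
      C * ((k : ℝ) + 1) ^ 4 * (13 / 2 * ((2 : ℝ) ^ k) ^ (94 / 100 : ℝ)) := by
  have h9 : (9 : ℝ) ≤ 3 ^ k := by
    calc (9 : ℝ) = 3 ^ 2 := by norm_num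
      _ ≤ 3 ^ k := pow_le_pow_right₀ (by norm_num) hk
  have h2k : (1 : ℝ) ≤ 2 ^ k := one_le_pow₀ (by norm_num)
  have hxV : (2 : ℝ) ^ (k + 1) ≤ 3 ^ k - 1 := by
    obtain ⟨j, rfl⟩ := Nat.exists_eq_add_of_le hk
    have : ∀ j : ℕ, (2 : ℝ) ^ (2 + j + 1) ≤ 3 ^ (2 + j) - 1 := by
      intro j
      induction j with
      | zero => norm_num
      | succ j ih =>
        have e1 : (2 : ℝ) ^ (2 + (j + 1) + 1) = 2 * 2 ^ (2 + j + 1) := by ring
        have e2 : (3 : ℝ) ^ (2 + (j + 1)) = 3 * 3 ^ (2 + j) := by ring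
        have h1 : (1 : ℝ) ≤ 3 ^ (2 + j) := one_le_pow₀ (by norm_num)
        rw [e1, e2]
        linarith
    exact this j
  have hmain := h ((2 : ℝ) ^ (k + 1)) ((2 : ℝ) ^ k) ((3 : ℝ) ^ k - 1)
    (by
      calc (2 : ℝ) = 2 ^ 1 := by norm_num
        _ ≤ 2 ^ (k + 1) := pow_le_pow_right₀ (by norm_num) (by omega)) h2k hxV
  have hsub : {n : ℕ | 1 ≤ n ∧ (n : ℝ) ≤ (2 : ℝ) ^ (k + 1) ∧ IsRecord n} ⊆
      {n : ℕ | 1 ≤ n ∧ (n : ℝ) ≤ (2 : ℝ) ^ k ∧ IsRecord n} ∪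
      {n : ℕ | 1 ≤ n ∧ (n : ℝ) ≤ (2 : ℝ) ^ (k + 1) ∧
        ¬ ExcursionsExplicit.DescendsBelow B ((2 : ℝ) ^ k) ((3 : ℝ) ^ k - 1) n} := by
    rintro n ⟨h1, h2, h3⟩
    rcases le_or_gt (n : ℝ) ((2 : ℝ) ^ k) with h4 | h4
    · exact Or.inl ⟨h1, h4, h3⟩
    · refine Or.inr ⟨h1, h2, rec_not_desc (by omega) (by exact_mod_cast h4) h3⟩
  have hcard : count IsRecord ((2 : ℝ) ^ (k + 1)) ≤ count IsRecord ((2 : ℝ) ^ k) +
      ExcursionsExplicit.count
        (fun n => ¬ ExcursionsExplicit.DescendsBelow B ((2 : ℝ) ^ k) ((3 : ℝ) ^ k - 1) n)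
        ((2 : ℝ) ^ (k + 1)) := by
    unfold count ExcursionsExplicit.count
    have h1 := Set.ncard_le_ncard hsub ((fin _ _).union (fin _ _))
    have h2 := h1.trans (Set.ncard_union_le _ _)
    exact_mod_cast h2
  refine hcard.trans (add_le_add le_rfl (hmain.trans ?_))
  have hl2 : 0 < Real.log 2 := Real.log_pos (by norm_num)
  have hl21 : Real.log 2 ≤ 1 := by linarith [Real.log_two_lt_d9]
  have hk0 : (0 : ℝ) ≤ k := Nat.cast_nonneg k
  have hlog : Real.log ((2 : ℝ) ^ (k + 1)) ^ 4 ≤ ((k : ℝ) + 1) ^ 4 := by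
    rw [Real.log_pow]
    push_cast
    apply pow_le_pow_left₀ (by positivity)
    nlinarith
  have hP0 : (0 : ℝ) < 2 ^ k := by positivity
  have hA : ((2 : ℝ) ^ (k + 1)) ^ 2 / ((3 : ℝ) ^ k - 1) ≤ 9 / 2 * ((2 : ℝ) ^ k) ^ (94 / 100 : ℝ) := by
    have hV : (8 / 9 : ℝ) * 3 ^ k ≤ 3 ^ k - 1 := by linarith
    have h3k : (0 : ℝ) < 3 ^ k := by positivity
    have h43 : ((4 : ℝ) / 3) ^ k ≤ ((2 : ℝ) ^ k) ^ (94 / 100 : ℝ) := by
      have h1 : ((4 : ℝ) / 3) ^ k ≤ ((2 : ℝ) ^ k) ^ (1 / 2 : ℝ) := by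
        rw [← Real.sqrt_eq_rpow]
        apply Real.le_sqrt_of_sq_le
        rw [← pow_mul, mul_comm k 2, pow_mul]
        exact pow_le_pow_left₀ (by norm_num) (by norm_num) k
      exact h1.trans (Real.rpow_le_rpow_of_exponent_le h2k (by norm_num))
    calc ((2 : ℝ) ^ (k + 1)) ^ 2 / ((3 : ℝ) ^ k - 1)
        ≤ ((2 : ℝ) ^ (k + 1)) ^ 2 / ((8 / 9 : ℝ) * 3 ^ k) :=
          div_le_div_of_nonneg_left (by positivity) (by positivity) hV
      _ = 9 / 2 * ((4 : ℝ) / 3) ^ k := by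
          have e : ((2 : ℝ) ^ (k + 1)) ^ 2 = 4 * 4 ^ k := by
            rw [← pow_mul, mul_comm, pow_mul, pow_succ]
            norm_num
            ring
          rw [e, div_pow]
          field_simp
          norm_num
      _ ≤ _ := by linarith
  have hB : (2 : ℝ) ^ (k + 1) / ((2 : ℝ) ^ k) ^ (6 / 100 : ℝ) = 2 * ((2 : ℝ) ^ k) ^ (94 / 100 : ℝ) := by
    have e : ((2 : ℝ) ^ k) = ((2 : ℝ) ^ k) ^ (94 / 100 : ℝ) * ((2 : ℝ) ^ k) ^ (6 / 100 : ℝ) := by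
      rw [← Real.rpow_add hP0]
      norm_num
    have h6 : 0 < ((2 : ℝ) ^ k) ^ (6 / 100 : ℝ) := Real.rpow_pos_of_pos hP0 _
    rw [div_eq_iff h6.ne', mul_assoc, ← e]
    ring
  rw [hB]
  have hR : 0 < ((2 : ℝ) ^ k) ^ (94 / 100 : ℝ) := Real.rpow_pos_of_pos hP0 _
  have hnn : 0 ≤ ((2 : ℝ) ^ (k + 1)) ^ 2 / ((3 : ℝ) ^ k - 1) + 2 * ((2 : ℝ) ^ k) ^ (94 / 100 : ℝ) := by
    have : (0 : ℝ) < 3 ^ k - 1 := by linarith
    positivity
  calc C * Real.log ((2 : ℝ) ^ (k + 1)) ^ 4 *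
        (((2 : ℝ) ^ (k + 1)) ^ 2 / ((3 : ℝ) ^ k - 1) + 2 * ((2 : ℝ) ^ k) ^ (94 / 100 : ℝ))
      ≤ C * ((k : ℝ) + 1) ^ 4 *
        (((2 : ℝ) ^ (k + 1)) ^ 2 / ((3 : ℝ) ^ k - 1) + 2 * ((2 : ℝ) ^ k) ^ (94 / 100 : ℝ)) :=
        mul_le_mul_of_nonneg_right (mul_le_mul_of_nonneg_left hlog hC.le) hnn
    _ ≤ _ := by
        apply mul_le_mul_of_nonneg_left _ (by positivity)
        linarith

/-- the number of the record-holders up to a power of two -/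
theorem pow_bound {B C : ℝ} (hC : 0 < C)
    (h : ∀ x y V : ℝ, 2 ≤ x → 1 ≤ y → x ≤ V →
      ExcursionsExplicit.count (fun n => ¬ ExcursionsExplicit.DescendsBelow B y V n) x ≤
        C * Real.log x ^ 4 * (x ^ 2 / V + x / y ^ (6 / 100 : ℝ))) (K : ℕ) :
    count IsRecord ((2 : ℝ) ^ K) ≤ (13 * C + 4) * ((K : ℝ) + 1) ^ 4 * ((2 : ℝ) ^ K) ^ (94 / 100 : ℝ) := by
  have hsmall : ∀ K : ℕ, K ≤ 2 → count IsRecord ((2 : ℝ) ^ K) ≤
      (13 * C + 4) * ((K : ℝ) + 1) ^ 4 * ((2 : ℝ) ^ K) ^ (94 / 100 : ℝ) := by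
    intro K hK
    have h1 : count IsRecord ((2 : ℝ) ^ K) ≤ 4 := by
      have h2 : (2 : ℝ) ^ K ≤ 4 := by
        calc (2 : ℝ) ^ K ≤ 2 ^ 2 := pow_le_pow_right₀ (by norm_num) hK
          _ = 4 := by norm_num
      refine (count_mono _ h2).trans ?_
      unfold count
      have h3 : {n : ℕ | 1 ≤ n ∧ (n : ℝ) ≤ 4 ∧ IsRecord n} ⊆ ((Finset.Icc 1 4 : Finset ℕ) : Set ℕ) := by
        rintro n ⟨a, b, -⟩
        rw [Finset.coe_Icc]
        exact ⟨a, by exact_mod_cast b⟩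
      have h4 := Set.ncard_le_ncard h3 (Finset.finite_toSet _)
      rw [Set.ncard_coe_finset] at h4
      have h5 : (Finset.Icc 1 4 : Finset ℕ).card = 4 := by simp
      rw [h5] at h4
      exact_mod_cast h4
    have h2 : (1 : ℝ) ≤ ((2 : ℝ) ^ K) ^ (94 / 100 : ℝ) :=
      Real.one_le_rpow (one_le_pow₀ (by norm_num)) (by norm_num)
    have h3 : (1 : ℝ) ≤ ((K : ℝ) + 1) ^ 4 := one_le_pow₀ (by have : (0 : ℝ) ≤ K := Nat.cast_nonneg K; linarith)
    calc count IsRecord ((2 : ℝ) ^ K) ≤ 4 := h1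
      _ ≤ (13 * C + 4) * 1 * 1 := by linarith
      _ ≤ _ := by
        apply mul_le_mul _ h2 (by norm_num) (by positivity)
        exact mul_le_mul_of_nonneg_left h3 (by positivity)
  rcases le_or_gt K 2 with hK | hK
  · exact hsmall K hK
  obtain ⟨j, rfl⟩ := Nat.exists_eq_add_of_le hK.le
  clear hK
  induction j with
  | zero => exact hsmall 2 le_rfl
  | succ j ih =>
    have h1 := step hC h (k := 2 + j) (by omega)
    have e0 : 2 + (j + 1) = 2 + j + 1 := by ring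
    rw [e0]
    set k : ℕ := 2 + j with hkdef
    set R : ℝ := ((2 : ℝ) ^ k) ^ (94 / 100 : ℝ) with hR
    have hR0 : 0 < R := Real.rpow_pos_of_pos (by positivity) _
    have hk0 : (0 : ℝ) ≤ k := Nat.cast_nonneg k
    have e1 : ((2 : ℝ) ^ (k + 1)) ^ (94 / 100 : ℝ) = (2 : ℝ) ^ (94 / 100 : ℝ) * R := by
      rw [pow_succ, Real.mul_rpow (by positivity) (by norm_num), mul_comm]
    have h32 : (3 / 2 : ℝ) ≤ (2 : ℝ) ^ (94 / 100 : ℝ) := by
      have h4 : (3 / 2 : ℝ) ≤ (2 : ℝ) ^ (3 / 4 : ℝ) := by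
        have h5 : ((3 / 2 : ℝ)) = ((3 / 2 : ℝ) ^ (4 : ℕ)) ^ (1 / 4 : ℝ) := by
          rw [← Real.rpow_natCast, ← Real.rpow_mul (by norm_num)]
          norm_num
        have h6 : (2 : ℝ) ^ (3 / 4 : ℝ) = ((2 : ℝ) ^ (3 : ℕ)) ^ (1 / 4 : ℝ) := by
          rw [← Real.rpow_natCast, ← Real.rpow_mul (by norm_num)]
          norm_num
        rw [h5, h6]
        exact Real.rpow_le_rpow (by norm_num) (by norm_num) (by norm_num)
      exact h4.trans (Real.rpow_le_rpow_of_exponent_le (by norm_num) (by norm_num))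
    have h5 : count IsRecord ((2 : ℝ) ^ (k + 1)) ≤
        (13 * C + 4) * ((k : ℝ) + 1) ^ 4 * (3 / 2 * R) := by
      have h6 : 0 ≤ ((k : ℝ) + 1) ^ 4 * R := by positivity
      calc count IsRecord ((2 : ℝ) ^ (k + 1))
          ≤ (13 * C + 4) * ((k : ℝ) + 1) ^ 4 * R + C * ((k : ℝ) + 1) ^ 4 * (13 / 2 * R) :=
            h1.trans (add_le_add ih le_rfl)
        _ ≤ _ := by nlinarith
    refine h5.trans ?_
    rw [e1]
    push_cast
    apply mul_le_mul _ (mul_le_mul_of_nonneg_right h32 hR0.le) (by positivity) (by positivity)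
    apply mul_le_mul_of_nonneg_left _ (by positivity)
    exact pow_le_pow_left₀ (by positivity) (by linarith) 4

/-- RECORD-HOLDERS. Let `F` be monotone. Then `t(n) ≤ F(n)` for all `n ≥ 1` iff this holds for all
record-holders; so `t(n) / n^2` is bounded iff it is bounded on the record-holders. The number of the
record-holders `≤ x` is `O((log x)^4 x^0.94)`. -/
theorem result :
    (∀ F : ℕ → ℕ∞, Monotone F →
      ((∀ n : ℕ, 1 ≤ n → t n ≤ F n) ↔ ∀ n : ℕ, IsRecord n → t n ≤ F n)) ∧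
    ((∃ C : ℕ, ∀ n : ℕ, 1 ≤ n → t n ≤ ((C * n ^ 2 : ℕ) : ℕ∞)) ↔
      ∃ C : ℕ, ∀ n : ℕ, IsRecord n → t n ≤ ((C * n ^ 2 : ℕ) : ℕ∞)) ∧
    ∃ C : ℝ, 0 < C ∧ ∀ x : ℝ, 2 ≤ x →
      count IsRecord x ≤ C * Real.log x ^ 4 * x ^ (94 / 100 : ℝ) := by
  have h1 : ∀ F : ℕ → ℕ∞, Monotone F →
      ((∀ n : ℕ, 1 ≤ n → t n ≤ F n) ↔ ∀ n : ℕ, IsRecord n → t n ≤ F n) := by
    intro F hF
    refine ⟨fun h n hn => h n hn.1, fun h n => ?_⟩
    induction n using Nat.strong_induction_on with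
    | _ n ih =>
      intro hn
      by_cases hr : IsRecord n
      · exact h n hr
      · unfold IsRecord at hr
        push Not at hr
        obtain ⟨m, hm1, hm2, hm3⟩ := hr hn
        exact hm3.trans ((ih m hm2 hm1).trans (hF hm2.le))
  refine ⟨h1, ?_, ?_⟩
  · refine exists_congr fun C => h1 (fun n => ((C * n ^ 2 : ℕ) : ℕ∞)) fun a b hab => ?_
    have h2 : C * a ^ 2 ≤ C * b ^ 2 := Nat.mul_le_mul_left _ (Nat.pow_le_pow_left hab 2)
    show ((C * a ^ 2 : ℕ) : ℕ∞) ≤ ((C * b ^ 2 : ℕ) : ℕ∞)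
    exact Nat.cast_le.2 h2
  · obtain ⟨B, C, -, hC, h⟩ := ExcursionsExplicit.result
    refine ⟨(13 * C + 4) * 5 ^ 4 * 2, by positivity, fun x hx => ?_⟩
    have hx0 : 0 < x := by linarith
    have hf : 2 ≤ ⌊x⌋₊ := Nat.le_floor (by exact_mod_cast hx)
    set K : ℕ := Nat.log 2 ⌊x⌋₊ with hK
    have h2 : ⌊x⌋₊ < 2 ^ (K + 1) := Nat.lt_pow_succ_log_self (by norm_num) _
    have h3 : 2 ^ K ≤ ⌊x⌋₊ := Nat.pow_log_le_self 2 (by omega)
    have h4 : x ≤ (2 : ℝ) ^ (K + 1) := by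
      have h5 := Nat.lt_floor_add_one x
      have h6 : ((⌊x⌋₊ + 1 : ℕ) : ℝ) ≤ ((2 ^ (K + 1) : ℕ) : ℝ) := by exact_mod_cast h2
      push_cast at h6
      linarith
    have h5 : (2 : ℝ) ^ K ≤ x := by
      have h6 := Nat.floor_le hx0.le
      have h7 : ((2 ^ K : ℕ) : ℝ) ≤ (⌊x⌋₊ : ℝ) := by exact_mod_cast h3
      push_cast at h7
      linarith
    have h6 := (count_mono IsRecord h4).trans (pow_bound hC h (K + 1))
    refine h6.trans ?_
    have hl2 : 0 < Real.log 2 := Real.log_pos (by norm_num)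
    have hl2' : (0.69 : ℝ) < Real.log 2 := by linarith [Real.log_two_gt_d9]
    have hlx : Real.log 2 ≤ Real.log x := Real.log_le_log (by norm_num) hx
    have hKl : (K : ℝ) * Real.log 2 ≤ Real.log x := by
      have := Real.log_le_log (by positivity) h5
      rwa [Real.log_pow] at this
    have hK2 : ((K + 1 : ℕ) : ℝ) + 1 ≤ 5 * Real.log x := by
      push_cast
      by_contra hcon
      push Not at hcon
      have h7 : (5 * Real.log x - 2) * 0.69 < Real.log x := by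
        have hK0 : (0 : ℝ) ≤ K := Nat.cast_nonneg K
        have : (K : ℝ) * 0.69 ≤ K * Real.log 2 := mul_le_mul_of_nonneg_left hl2'.le hK0
        nlinarith
      linarith
    have h8 : ((2 : ℝ) ^ (K + 1)) ^ (94 / 100 : ℝ) ≤ 2 * x ^ (94 / 100 : ℝ) := by
      have h9 : (2 : ℝ) ^ (K + 1) ≤ 2 * x := by rw [pow_succ]; linarith
      calc ((2 : ℝ) ^ (K + 1)) ^ (94 / 100 : ℝ) ≤ (2 * x) ^ (94 / 100 : ℝ) :=
            Real.rpow_le_rpow (by positivity) h9 (by norm_num)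
        _ = 2 ^ (94 / 100 : ℝ) * x ^ (94 / 100 : ℝ) := Real.mul_rpow (by norm_num) hx0.le
        _ ≤ 2 * x ^ (94 / 100 : ℝ) := by
          apply mul_le_mul_of_nonneg_right _ (by positivity)
          calc (2 : ℝ) ^ (94 / 100 : ℝ) ≤ 2 ^ (1 : ℝ) :=
                Real.rpow_le_rpow_of_exponent_le (by norm_num) (by norm_num)
            _ = 2 := Real.rpow_one 2
    calc (13 * C + 4) * (((K + 1 : ℕ) : ℝ) + 1) ^ 4 * ((2 : ℝ) ^ (K + 1)) ^ (94 / 100 : ℝ)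
        ≤ (13 * C + 4) * (5 * Real.log x) ^ 4 * (2 * x ^ (94 / 100 : ℝ)) := by
          apply mul_le_mul _ h8 (by positivity) (by positivity)
          apply mul_le_mul_of_nonneg_left _ (by positivity)
          exact pow_le_pow_left₀ (by positivity) hK2 4
      _ = _ := by ring

end Pool.Agent.Results.MP_0a5adf_nt.RecordHolders
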