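import Pool.Agent.L5helper85.SH.Main

set_option autoImplicit false

/-! The shape of the trajectories with a large excursion. -/

namespace Pool.Agent.Results.MP_0a5adf_nt.ShapeOfExcursions

/-- the accelerated `3x+1` map -/
def T (n : ℕ) : ℕ := if n % 2 = 0 then n / 2 else (3 * n + 1) / 2

/-- the trajectory of `n` exceeds `V` before it reaches a value `≤ y` -/
def ExceedsBefore (V y : ℝ) (n : ℕ) : Prop :=
  ∃ k, V < (T^[k] n : ℕ) ∧ ∀ j ≤ k, y < (T^[j] n : ℕ)

/-- the number of the odd terms among `n, T n, ..., T^(j-1) n` -/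
def odds (j n : ℕ) : ℕ := ((Finset.range j).filter fun i => T^[i] n % 2 = 1).card

/-- The trajectory of `n` climbs to `lam * n` in a straight line: if `τ` is the least index with
`T^τ n > lam * n`, then `τ` differs from `4 / log (27/16) * log lam` by at most `ε log lam`, and for all
`j ≤ τ` the logarithm of `T^j n / n` differs from `log (27/16) / 4 * j` and the number of the odd terms
among `n, ..., T^(j-1) n` from `3/4 * j` by at most `ε log lam`. -/
def StraightClimb (ε lam : ℝ) (n : ℕ) : Prop :=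
  ∃ τ : ℕ, (lam * n < (T^[τ] n : ℕ) ∧ ∀ j < τ, ((T^[j] n : ℕ) : ℝ) ≤ lam * n) ∧
    |(τ : ℝ) - 4 / Real.log (27 / 16) * Real.log lam| ≤ ε * Real.log lam ∧
    ∀ j ≤ τ, |Real.log ((T^[j] n : ℕ) / n) - Real.log (27 / 16) / 4 * j| ≤ ε * Real.log lam ∧
      |(odds j n : ℝ) - 3 / 4 * j| ≤ ε * Real.log lam

/-- the number of positive integers `n ≤ x` with the property `P` -/
noncomputable def count (P : ℕ → Prop) (x : ℝ) : ℝ := ({n : ℕ | 1 ≤ n ∧ (n : ℝ) ≤ x ∧ P n}.ncard : ℝ)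

theorem T_eq : T = Pool.Agent.Helper894.Collatz.T := rfl

open scoped Classical in
theorem count_eq (P : ℕ → Prop) {x : ℝ} (hx : 0 ≤ x) :
    count P x = (((Finset.Icc 1 ⌊x⌋₊).filter P).card : ℝ) := by
  unfold count
  have : {n : ℕ | 1 ≤ n ∧ (n : ℝ) ≤ x ∧ P n} = (((Finset.Icc 1 ⌊x⌋₊).filter P : Finset ℕ) : Set ℕ) := by
    ext n
    rw [Finset.coe_filter]
    simp only [Set.mem_ofPred_eq, Finset.mem_Icc, Nat.le_floor_iff hx]
    tauto
  rw [this, Set.ncard_coe_finset]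

theorem odds_eq (j n : ℕ) : odds j n = Pool.Agent.Helper894.Collatz.od j n := by
  unfold odds Pool.Agent.Helper894.Collatz.od
  rw [Finset.card_filter]
  apply Finset.sum_congr rfl
  intro i _
  rw [T_eq]
  rcases Nat.mod_two_eq_zero_or_one (Pool.Agent.Helper894.Collatz.T^[i] n) with h | h
  · rw [h]; simp
  · rw [h]; simp

theorem straight_of {ε lam : ℝ} {n : ℕ}
    (h : Pool.Agent.L5helper85.SH.Climb (ε * Pool.Agent.L5helper85.SH.dr) lam n) (hε : 0 ≤ ε)
    (hlam : 1 ≤ lam) : StraightClimb ε lam n := by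
  have hd := Pool.Agent.L5helper85.SH.dr_pos
  have hd1 := Pool.Agent.L5helper85.SH.dr_le
  have hL : 0 ≤ Real.log lam := Real.log_nonneg hlam
  have hle : ε * Pool.Agent.L5helper85.SH.dr * Real.log lam ≤ ε * Real.log lam := by
    apply mul_le_mul_of_nonneg_right _ hL
    calc ε * Pool.Agent.L5helper85.SH.dr ≤ ε * 1 := mul_le_mul_of_nonneg_left hd1 hε
      _ = ε := mul_one ε
  obtain ⟨τ, h1, h2, h3, h4⟩ := h
  have hdr : Real.log (27 / 16) / 4 = Pool.Agent.L5helper85.SH.dr := rfl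
  refine ⟨τ, ⟨h1, h2⟩, ?_, fun j hj => ⟨?_, ?_⟩⟩
  · have e1 : (4 : ℝ) / Real.log (27 / 16) = (Pool.Agent.L5helper85.SH.dr)⁻¹ := by
      rw [← hdr, inv_div]
    rw [e1]
    have e2 : (τ : ℝ) - (Pool.Agent.L5helper85.SH.dr)⁻¹ * Real.log lam =
        (Pool.Agent.L5helper85.SH.dr)⁻¹ * (τ * Pool.Agent.L5helper85.SH.dr - Real.log lam) := by
      field_simp
    rw [e2, abs_mul, abs_of_pos (inv_pos.2 hd)]
    calc (Pool.Agent.L5helper85.SH.dr)⁻¹ * |τ * Pool.Agent.L5helper85.SH.dr - Real.log lam|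
        ≤ (Pool.Agent.L5helper85.SH.dr)⁻¹ * (ε * Pool.Agent.L5helper85.SH.dr * Real.log lam) :=
          mul_le_mul_of_nonneg_left h3 (inv_pos.2 hd).le
      _ = ε * Real.log lam := by field_simp
  · have h5 := (h4 j hj).1
    rw [hdr, mul_comm (Pool.Agent.L5helper85.SH.dr)]
    exact h5.trans hle
  · have h5 := (h4 j hj).2
    rw [odds_eq]
    exact h5.trans hle

/-- THE SHAPE OF THE LARGE EXCURSIONS. There is `c > 0` such that for all `0 < θ ≤ θ' < 1`, `v < θ / 21`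
and `ε > 0`, for all large `x`, uniformly for `x^θ ≤ y ≤ x^θ'` and `L ≤ lam ≤ x^v`: at least `c x / lam`
of the `n ≤ x` have a trajectory which exceeds `lam * n` before it reaches a value `≤ y`, and among these
all but a proportion `ε` climb to `lam * n` in a straight line: the first term greater than `lam * n` has
index `(4 / log (27/16) ± ε) log lam`, and for all `j` up to this index `log (T^j n / n)` is
`(log (27/16) / 4) j ± ε log lam` and the number of the odd terms among `n, ..., T^(j-1) n` is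
`(3/4) j ± ε log lam`. -/
theorem result : ∃ c : ℝ, 0 < c ∧ ∀ θ θ' v : ℝ, 0 < θ → θ ≤ θ' → θ' < 1 → v < θ / 21 →
    ∀ ε : ℝ, 0 < ε → ∃ L x₀ : ℝ, ∀ x y lam : ℝ, x₀ ≤ x → x ^ θ ≤ y → y ≤ x ^ θ' →
      L ≤ lam → lam ≤ x ^ v →
        c * (x / lam) ≤ count (fun n => ExceedsBefore (lam * n) y n) x ∧
        count (fun n => ExceedsBefore (lam * n) y n ∧ ¬ StraightClimb ε lam n) x ≤
          ε * count (fun n => ExceedsBefore (lam * n) y n) x := by
  classical
  refine ⟨Pool.Agent.W36.SL.C / 2, by have := Pool.Agent.W36.SL.C_pos; linarith, ?_⟩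
  intro θ θ' v h1 h2 h3 h4 ε hε
  obtain ⟨L, x₀, h⟩ := Pool.Agent.L5helper85.SH.shape h1 h2 h3 h4
    (e := ε * Pool.Agent.L5helper85.SH.dr) (mul_pos hε Pool.Agent.L5helper85.SH.dr_pos) hε
  refine ⟨max L 1, max x₀ 0, fun x y lam hx hy1 hy2 hl1 hl2 => ?_⟩
  have hx0 : 0 ≤ x := (le_max_right _ _).trans hx
  have hlam : 1 ≤ lam := (le_max_right _ _).trans hl1
  obtain ⟨ha, hb⟩ := h x y lam ((le_max_left _ _).trans hx) hy1 hy2 ((le_max_left _ _).trans hl1) hl2
  have e1 : count (fun n => ExceedsBefore (lam * n) y n) x =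
      (((Finset.Icc 1 ⌊x⌋₊).filter (Pool.Agent.W36.SL.Exc lam y)).card : ℝ) := count_eq _ hx0
  rw [e1]
  refine ⟨ha, le_trans ?_ hb⟩
  rw [count_eq _ hx0]
  have hsub : ((Finset.Icc 1 ⌊x⌋₊).filter fun n : ℕ =>
      ExceedsBefore (lam * n) y n ∧ ¬ StraightClimb ε lam n) ⊆
      (Finset.Icc 1 ⌊x⌋₊).filter fun n : ℕ => Pool.Agent.W36.SL.Exc lam y n ∧
        ¬ Pool.Agent.L5helper85.SH.Climb (ε * Pool.Agent.L5helper85.SH.dr) lam n := by
    intro n hn
    rw [Finset.mem_filter] at hn ⊢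
    exact ⟨hn.1, hn.2.1, fun hc => hn.2.2 (straight_of hc hε.le hlam)⟩
  refine Nat.cast_le.2 ?_
  convert Finset.card_le_card hsub

end Pool.Agent.Results.MP_0a5adf_nt.ShapeOfExcursions
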